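import Pool.Agent.P.MP_49c4d9_an.PBR.Main

/-!
A reductive power bounded operator on a complex Hilbert space is the orthogonal sum of a unitary
operator and an operator of class C_00.
-/

set_option autoImplicit false

namespace Pool.Agent.Results.MP_49c4d9_an.PowerBoundedReductive

open Filter Topology

/-- Let `T` be a power bounded operator on a complex Hilbert space such that every closed
invariant subspace is invariant under the adjoint. Then there is a closed subspace `K` reducing
`T` such that `T` is unitary on `K`, and on the orthogonal complement of `K` the powers of `T` and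
of its adjoint tend to zero strongly. -/
theorem result (H : Type) [NormedAddCommGroup H] [InnerProductSpace ℂ H] [CompleteSpace H]
    (T : H →L[ℂ] H) (hpow : ∃ M : ℝ, ∀ n : ℕ, ‖T ^ n‖ ≤ M)
    (hred : ∀ V : Submodule ℂ H, IsClosed (V : Set H) → (∀ x ∈ V, T x ∈ V) →
      ∀ x ∈ V, ContinuousLinearMap.adjoint T x ∈ V) :
    ∃ K : Submodule ℂ H, IsClosed (K : Set H) ∧ (∀ x ∈ K, T x ∈ K) ∧ (∀ x ∈ Kᗮ, T x ∈ Kᗮ) ∧
      (∀ x ∈ K, ContinuousLinearMap.adjoint T (T x) = x ∧
        T (ContinuousLinearMap.adjoint T x) = x) ∧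
      ∀ x ∈ Kᗮ, Tendsto (fun n : ℕ => (T ^ n) x) atTop (𝓝 0) ∧
        Tendsto (fun n : ℕ => (ContinuousLinearMap.adjoint T ^ n) x) atTop (𝓝 0) := by
  obtain ⟨M, hM⟩ := hpow
  exact Pool.Agent.P.MP_49c4d9_an.PBR.Red.split hred hM

end Pool.Agent.Results.MP_49c4d9_an.PowerBoundedReductive
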